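import Pool.Agent.Helper40.HW.Defs

/-! Accessible fields. -/

namespace Pool.Agent.Helper40.HW

variable {G : Type} [Group G] [TopologicalSpace G]

lemma Accessible.isOpen {c : G} {J : Subgroup G} (hJ : Accessible c J) :
    IsOpen (J : Set G) := by
  cases hJ with
  | real _ ho _ => exact ho
  | abelian _ _ _ ho _ _ => exact ho
  | cubic _ _ _ ho _ _ => exact ho

/-- If complex conjugation is hypercentral modulo the open normal subgroup `V`, all fields between
`ℚ` and the field fixed by `V` are accessible. -/
lemma accessible_of_hypercentral {c : G} {V : Subgroup G} [hV : V.Normal]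
    (hVo : IsOpen (V : Set G)) [IsTopologicalGroup G] (n : ℕ)
    (hc : QuotientGroup.mk' V c ∈ Subgroup.upperCentralSeries (G ⧸ V) n) {J : Subgroup G}
    (hJ : V ≤ J) : Accessible c J := by
  -- the chain `J ⊔ Z i`
  let Z : ℕ → Subgroup G := fun i =>
    (Subgroup.upperCentralSeries (G ⧸ V) i).comap (QuotientGroup.mk' V)
  have hZn : ∀ i, (Z i).Normal := fun i => inferInstance
  have hmemZ : ∀ i g, g ∈ Z i ↔ QuotientGroup.mk' V g ∈ Subgroup.upperCentralSeries (G ⧸ V) i :=
    fun i g => Iff.rfl
  have hVZ : ∀ i, V ≤ Z i := by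
    intro i v hv
    rw [hmemZ]
    have : QuotientGroup.mk' V v = 1 := (QuotientGroup.eq_one_iff v).2 hv
    rw [this]
    exact one_mem _
  have hopen : ∀ i, IsOpen ((J ⊔ Z i : Subgroup G) : Set G) := fun i =>
    Subgroup.isOpen_mono (hJ.trans le_sup_left) hVo
  have hstep : ∀ i, ∀ z ∈ Z (i + 1), ∀ g : G, z * g * z⁻¹ * g⁻¹ ∈ Z i := by
    intro i z hz g
    rw [hmemZ, Subgroup.mem_upperCentralSeries_succ_iff] at hz
    have h2 := hz (QuotientGroup.mk' V g)
    rw [hmemZ]
    simpa [commutatorElement_def] using h2
  have hmono : ∀ i, Z i ≤ Z (i + 1) := by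
    intro i z hz
    rw [hmemZ] at hz ⊢
    exact Subgroup.upperCentralSeries_mono _ (Nat.le_succ i) hz
  have hmain : ∀ i, Accessible c (J ⊔ Z (n - i)) := by
    intro i
    induction i with
    | zero =>
      refine Accessible.real _ (hopen _) fun g => ?_
      have h1 : c ∈ Z n := hc
      exact (le_sup_right : Z n ≤ J ⊔ Z n) ((hZn n).conj_mem c h1 g)
    | succ i ih =>
      by_cases hi : n - i = 0
      · have : n - (i + 1) = n - i := by omega
        rw [this]; exact ih
      · obtain ⟨m, hm⟩ : ∃ m, n - i = m + 1 := ⟨n - i - 1, by omega⟩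
        have hm' : n - (i + 1) = m := by omega
        rw [hm] at ih
        rw [hm']
        refine Accessible.abelian _ _ ih (hopen m) (sup_le_sup_left (hmono m) J) ?_
        intro x hx y hy
        have := hZn m
        have := hZn (m + 1)
        obtain ⟨j, hj, z, hz, rfl⟩ := Subgroup.mem_sup_of_normal_right.1 hx
        obtain ⟨j', hj', z', hz', rfl⟩ := Subgroup.mem_sup_of_normal_right.1 hy
        -- compute modulo `Z m`
        have hcen : ∀ z ∈ Z (m + 1), ∀ g : G, QuotientGroup.mk' (Z m) z * QuotientGroup.mk' (Z m) g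
            = QuotientGroup.mk' (Z m) g * QuotientGroup.mk' (Z m) z := by
          intro z hz g
          have h1 : QuotientGroup.mk' (Z m) (z * g * z⁻¹ * g⁻¹) = 1 :=
            (QuotientGroup.eq_one_iff _).2 (hstep m z hz g)
          rw [map_mul, map_mul, map_mul, map_inv, map_inv, mul_inv_eq_one, mul_inv_eq_iff_eq_mul]
            at h1
          exact h1
        have h1 : QuotientGroup.mk' (Z m) (j * z * (j' * z') * (j * z)⁻¹ * (j' * z')⁻¹) =
            QuotientGroup.mk' (Z m) (j * j' * j⁻¹ * j'⁻¹) := by
          simp only [map_mul, map_inv]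
          have e1 := hcen z hz
          have e2 := hcen z' hz'
          generalize hA : QuotientGroup.mk' (Z m) z = A at e1 ⊢
          generalize hB : QuotientGroup.mk' (Z m) z' = B at e2 ⊢
          have eAj' := e1 j'
          have eAB : A * B = B * A := by rw [← hB]; exact e1 z'
          have eBj := e2 j
          have eBj' := e2 j'
          have eAj := e1 j
          generalize QuotientGroup.mk' (Z m) j = a at *
          generalize QuotientGroup.mk' (Z m) j' = b at *
          -- A and B are central in the group generated by a, b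
          have f1 : a * A * (b * B) = a * b * (A * B) := by
            rw [mul_assoc a A, ← mul_assoc A b B, eAj', mul_assoc b A B, ← mul_assoc]
          have f2 : b * B * (a * A) = b * a * (A * B) := by
            rw [mul_assoc b B, ← mul_assoc B a A, eBj, mul_assoc a B A, ← eAB, ← mul_assoc]
          have f3 : a * A * (b * B) * (a * A)⁻¹ * (b * B)⁻¹ =
              a * A * (b * B) * (b * B * (a * A))⁻¹ := by
            group
          have f4 : a * b * a⁻¹ * b⁻¹ = a * b * (b * a)⁻¹ := by group
          rw [f3, f1, f2, f4]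
          group
        have h2 : (j * j' * j⁻¹ * j'⁻¹)⁻¹ * (j * z * (j' * z') * (j * z)⁻¹ * (j' * z')⁻¹) ∈
            Z m := by
          rw [← QuotientGroup.eq_one_iff]
          change QuotientGroup.mk' (Z m) _ = 1
          rw [map_mul, map_inv, h1, inv_mul_cancel]
        have h3 : j * j' * j⁻¹ * j'⁻¹ ∈ J :=
          J.mul_mem (J.mul_mem (J.mul_mem hj hj') (J.inv_mem hj)) (J.inv_mem hj')
        have h4 : j * z * (j' * z') * (j * z)⁻¹ * (j' * z')⁻¹ = (j * j' * j⁻¹ * j'⁻¹) *
            ((j * j' * j⁻¹ * j'⁻¹)⁻¹ * (j * z * (j' * z') * (j * z)⁻¹ * (j' * z')⁻¹)) := by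
          group
        rw [h4]
        exact Subgroup.mul_mem_sup h3 h2
  have h := hmain n
  have hn : n - n = 0 := Nat.sub_self n
  rw [hn] at h
  have hZ0 : Z 0 ≤ J := by
    intro g hg
    rw [hmemZ, Subgroup.upperCentralSeries_zero, Subgroup.mem_bot] at hg
    exact hJ ((QuotientGroup.eq_one_iff g).1 hg)
  rwa [sup_of_le_left hZ0] at h

end Pool.Agent.Helper40.HW
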