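import Mathlib

/-! # A formal setting for Hasse-Weil L-functions of a rational elliptic curve over number fields

`G` plays the role of the absolute Galois group of `ℚ`; number fields are open subgroups `J` of `G`
(the field fixed by `J`), Galois characters of finite order are homomorphisms `J →* ℂˣ` trivial on
an open subgroup. -/

open Complex

namespace Pool.Agent.Helper40.HW

variable {G : Type} [Group G]

open Classical in
/-- The character of `F` induced from the linear character `χ` of the subgroup `J`. -/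
noncomputable def indChar (F J : Subgroup G) (χ : J →* ℂˣ) (g : G) : ℂ :=
  ∑ᶠ x : F ⧸ J.subgroupOf F,
    if h : (x.out : G)⁻¹ * g * (x.out : G) ∈ J then ((χ ⟨_, h⟩ : ℂˣ) : ℂ) else 0

/-- `χ` is trivial on the elements of `J` in some open subgroup -/
def FiniteOrder [TopologicalSpace G] {J : Subgroup G} (χ : J →* ℂˣ) : Prop :=
  ∃ U : Subgroup G, IsOpen (U : Set G) ∧ ∀ (g : G) (h : g ∈ J), g ∈ U → χ ⟨g, h⟩ = 1

/-- all complex conjugations lie in `J`: the field fixed by `J` is totally real -/
def TotallyReal (c : G) (J : Subgroup G) : Prop := ∀ g : G, g * c * g⁻¹ ∈ J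

/-- the commutators of elements of `J` lie in `J'` -/
def CommIn (J J' : Subgroup G) : Prop := ∀ x ∈ J, ∀ y ∈ J, x * y * x⁻¹ * y⁻¹ ∈ J'

/-- `f` is an entire continuation of `L`, and `Λ` is entire and equal to
`A^{s/2} ((2π)^{-s} Γ(s))^n f(s)` away from the poles of `Γ`. -/
structure IsCompleted (L : ℂ → ℂ) (A : ℝ) (n : ℕ) (f Λ : ℂ → ℂ) : Prop where
  entire : Differentiable ℂ f
  extends_L : ∀ s : ℂ, 3 / 2 < s.re → f s = L s
  entire_completed : Differentiable ℂ Λ
  completed : ∀ s : ℂ, (∀ m : ℕ, s ≠ -m) →
    Λ s = (A : ℂ) ^ (s / 2) * ((2 * Real.pi : ℂ) ^ (-s) * Gamma s) ^ n * f s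

/-- A system of `L`-functions over the number fields, e.g. of an elliptic curve `E` over `ℚ`:
`L J χ` is `L (E/K ⊗ χ, s)` for `re s > 3/2`, where `K` is the field fixed by `J` and `χ` a character
of its Galois group, `cond J χ` the constant `A` and `root J χ` the root number in its functional
equation. -/
structure LSystem (G : Type) [Group G] [TopologicalSpace G] where
  L : (J : Subgroup G) → (J →* ℂˣ) → ℂ → ℂ
  cond : (J : Subgroup G) → (J →* ℂˣ) → ℝ
  root : (J : Subgroup G) → (J →* ℂˣ) → ℂ
  cond_pos : ∀ (J : Subgroup G) (χ : J →* ℂˣ), IsOpen (J : Set G) → 0 < cond J χ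
  /-- Artin formalism for `L`-functions, conductors and root numbers: if the permutation character
  of `F` on `F/K` is the sum of the characters induced from characters of finite order `χ i` of
  `J i`, then `L (E/K, s)` is the product of the `L (E/K_i ⊗ χ_i, s)`, and the same holds for the
  constants `A` and the root numbers. -/
  artin : ∀ (F K : Subgroup G), IsOpen (F : Set G) → IsOpen (K : Set G) → K ≤ F →
    ∀ (ι : Type) [Fintype ι] (J : ι → Subgroup G) (χ : (i : ι) → J i →* ℂˣ),
      (∀ i, IsOpen (J i : Set G) ∧ J i ≤ F ∧ FiniteOrder (χ i)) →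
      (∀ g ∈ F, indChar F K 1 g = ∑ i, indChar F (J i) (χ i) g) →
      (∀ s : ℂ, 3 / 2 < s.re → L K 1 s = ∏ i, L (J i) (χ i) s) ∧
        cond K 1 = ∏ i, cond (J i) (χ i) ∧ root K 1 = ∏ i, root (J i) (χ i)

variable [TopologicalSpace G]

/-- Over the field fixed by `J`, the twists of `E` by all characters of finite order have entire
`L`-functions with functional equations `Λ (χ, s) = w Λ (χ⁻¹, 2 - s)`. -/
def TwistsHold (D : LSystem G) (J : Subgroup G) : Prop :=
  ∀ χ : J →* ℂˣ, FiniteOrder χ → ∃ f Λ f' Λ' : ℂ → ℂ,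
    IsCompleted (D.L J χ) (D.cond J χ) J.index f Λ ∧
    IsCompleted (D.L J χ⁻¹) (D.cond J χ⁻¹) J.index f' Λ' ∧
    ∀ s, Λ s = D.root J χ * Λ' (2 - s)

/-- Hasse-Weil for `E` over the field fixed by `K`: `L (E/K, s)` extends to an entire function, the
completed `L`-function `Λ` is entire and `Λ (s) = w Λ (2 - s)` for all `s`. -/
def HasseWeil (D : LSystem G) (K : Subgroup G) : Prop :=
  ∃ f Λ : ℂ → ℂ, IsCompleted (D.L K 1) (D.cond K 1) K.index f Λ ∧
    ∀ s, Λ s = D.root K 1 * Λ (2 - s)

/-- Fields obtained from totally real fields by successive abelian and cubic extensions. -/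
inductive Accessible (c : G) : Subgroup G → Prop
  | real (J : Subgroup G) : IsOpen (J : Set G) → TotallyReal c J → Accessible c J
  | abelian (J J' : Subgroup G) : Accessible c J → IsOpen (J' : Set G) → J' ≤ J →
      CommIn J J' → Accessible c J'
  | cubic (J J' : Subgroup G) : Accessible c J → IsOpen (J' : Set G) → J' ≤ J →
      J'.relIndex J = 3 → Accessible c J'

end Pool.Agent.Helper40.HW
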