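import Pool.Agent.Helper40.HW.Fourier
import Pool.Agent.Helper40.HW.Defs

/-! Decomposition of the permutation character of `V ⊔ K` on the cosets of `K`, for a normal
subgroup `V` whose commutators lie in `K`. -/

namespace Pool.Agent.Helper40.HW

open scoped Classical

section abstract

variable {F Q : Type} [Group F] [CommGroup Q]

/-- the action on the dual group -/
@[reducible] def dualAction (act : F →* MulAut Q) : MulAction F (Q →* ℂˣ) where
  smul x χ := χ.comp (act x⁻¹).toMonoidHom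
  one_smul χ := by
    ext q
    change ((χ ((act 1⁻¹) q) : ℂˣ) : ℂ) = _
    simp
  mul_smul x y χ := by
    ext q
    change ((χ ((act (x * y)⁻¹) q) : ℂˣ) : ℂ) = ((χ ((act y⁻¹) ((act x⁻¹) q)) : ℂˣ) : ℂ)
    simp [MulAut.mul_apply]

end abstract

section concrete

set_option linter.unusedSectionVars false

variable {G : Type} [Group G]

/-- two subgroups `V` and `K`, with `K` normalising `V` and containing the commutators of `V` -/
structure Setup (G : Type) [Group G] where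
  V : Subgroup G
  K : Subgroup G
  norm : ∀ k ∈ K, ∀ v ∈ V, k * v * k⁻¹ ∈ V
  comm : CommIn V K

variable (S : Setup G)

/-- the group generated by `V` and `K` -/
def Setup.F : Subgroup G where
  carrier := {g | ∃ v ∈ S.V, ∃ k ∈ S.K, v * k = g}
  one_mem' := ⟨1, S.V.one_mem, 1, S.K.one_mem, mul_one 1⟩
  mul_mem' := by
    rintro _ _ ⟨v, hv, k, hk, rfl⟩ ⟨v', hv', k', hk', rfl⟩
    exact ⟨v * (k * v' * k⁻¹), S.V.mul_mem hv (S.norm k hk v' hv'), k * k', S.K.mul_mem hk hk',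
      by group⟩
  inv_mem' := by
    rintro _ ⟨v, hv, k, hk, rfl⟩
    refine ⟨k⁻¹ * v⁻¹ * k⁻¹⁻¹, S.norm _ (S.K.inv_mem hk) _ (S.V.inv_mem hv), k⁻¹,
      S.K.inv_mem hk, by group⟩

lemma Setup.mem_F {g : G} : g ∈ S.F ↔ ∃ v ∈ S.V, ∃ k ∈ S.K, v * k = g := Iff.rfl

lemma Setup.V_le : S.V ≤ S.F := fun v hv => ⟨v, hv, 1, S.K.one_mem, mul_one v⟩

lemma Setup.K_le : S.K ≤ S.F := fun k hk => ⟨1, S.V.one_mem, k, hk, one_mul k⟩

lemma Setup.F_eq : S.F = S.V ⊔ S.K := by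
  apply le_antisymm
  · rintro _ ⟨v, hv, k, hk, rfl⟩
    exact Subgroup.mul_mem_sup hv hk
  · exact sup_le S.V_le S.K_le

lemma Setup.F_norm {x : G} (hx : x ∈ S.F) {v : G} (hv : v ∈ S.V) : x * v * x⁻¹ ∈ S.V := by
  obtain ⟨u, hu, k, hk, rfl⟩ := hx
  have h1 := S.norm k hk v hv
  have h2 : u * k * v * (u * k)⁻¹ = u * (k * v * k⁻¹) * u⁻¹ := by group
  rw [h2]
  exact S.V.mul_mem (S.V.mul_mem hu h1) (S.V.inv_mem hu)

/-- the intersection of `V` and `K`, in `V` -/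
abbrev Setup.W : Subgroup S.V := S.K.subgroupOf S.V

instance Setup.Wnormal : S.W.Normal := by
  constructor
  intro w hw x
  rw [Subgroup.mem_subgroupOf] at hw ⊢
  have h1 := S.comm x x.2 w w.2
  have h2 : ((x * w * x⁻¹ : S.V) : G) = (x * w * x⁻¹ * w⁻¹ : G) * w := by
    push_cast
    group
  rw [h2]
  exact S.K.mul_mem h1 hw

/-- the quotient -/
abbrev Setup.Q : Type := S.V ⧸ S.W

noncomputable instance Setup.commQ : CommGroup S.Q :=
  { (inferInstance : Group S.Q) with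
    mul_comm := by
      intro a b
      obtain ⟨a, rfl⟩ := QuotientGroup.mk_surjective a
      obtain ⟨b, rfl⟩ := QuotientGroup.mk_surjective b
      rw [← QuotientGroup.mk_mul, ← QuotientGroup.mk_mul, QuotientGroup.eq,
        Subgroup.mem_subgroupOf]
      have h1 := S.comm (b : G)⁻¹ (S.V.inv_mem b.2) (a : G)⁻¹ (S.V.inv_mem a.2)
      convert h1 using 1
      push_cast
      group }

/-- conjugation by an element of `F` -/
def Setup.cj (x : S.F) : MulAut S.V where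
  toFun v := ⟨x * v * (x : G)⁻¹, S.F_norm x.2 v.2⟩
  invFun v := ⟨(x⁻¹ : G) * v * (x : G)⁻¹⁻¹, S.F_norm (S.F.inv_mem x.2) v.2⟩
  left_inv v := Subtype.ext (by group)
  right_inv v := Subtype.ext (by group)
  map_mul' v w := Subtype.ext (by push_cast; group)

lemma Setup.cj_coe (x : S.F) (v : S.V) : (S.cj x v : G) = x * v * (x : G)⁻¹ := rfl

/-- conjugation by an element of `F` preserves `W` -/
lemma Setup.conj_W (x : S.F) : S.W.map (S.cj x).toMonoidHom = S.W := by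
  have key : ∀ x : S.F, ∀ w ∈ S.W, S.cj x w ∈ S.W := by
    rintro ⟨x, hx⟩ w hw
    rw [Subgroup.mem_subgroupOf] at hw ⊢
    rw [S.cj_coe]
    obtain ⟨v, hv, k, hk, rfl⟩ := S.mem_F.1 hx
    have h1 : k * w * k⁻¹ ∈ S.K := S.K.mul_mem (S.K.mul_mem hk hw) (S.K.inv_mem hk)
    have h2 : k * w * k⁻¹ ∈ S.V := S.norm k hk _ w.2
    have h3 := S.comm v hv _ h2
    have h4 : v * k * w * (v * k)⁻¹ =
        v * (k * w * k⁻¹) * v⁻¹ * (k * w * k⁻¹)⁻¹ * (k * w * k⁻¹) := by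
      group
    change v * k * w * (v * k)⁻¹ ∈ S.K
    rw [h4]
    exact S.K.mul_mem h3 h1
  apply le_antisymm
  · rintro _ ⟨w, hw, rfl⟩
    exact key x w hw
  · intro w hw
    refine ⟨S.cj x⁻¹ w, key x⁻¹ w hw, ?_⟩
    apply Subtype.ext
    change ((S.cj x (S.cj x⁻¹ w) : S.V) : G) = w
    rw [S.cj_coe, S.cj_coe]
    push_cast
    group

/-- the action of `F` on `Q` by conjugation -/
noncomputable def Setup.act : S.F →* MulAut S.Q where
  toFun x := QuotientGroup.congr S.W S.W (S.cj x) (S.conj_W x)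
  map_one' := by
    ext q
    obtain ⟨v, rfl⟩ := QuotientGroup.mk_surjective q
    change ((S.cj 1 v : S.V) : S.Q) = (v : S.Q)
    congr 1
    apply Subtype.ext
    rw [S.cj_coe]
    simp
  map_mul' x y := by
    ext q
    obtain ⟨v, rfl⟩ := QuotientGroup.mk_surjective q
    change ((S.cj (x * y) v : S.V) : S.Q) = ((S.cj x (S.cj y v) : S.V) : S.Q)
    congr 1
    apply Subtype.ext
    rw [S.cj_coe, S.cj_coe, S.cj_coe]
    push_cast
    group

lemma Setup.act_mk (x : S.F) (v : S.V) :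
    S.act x (v : S.Q) = ((⟨x * v * (x : G)⁻¹, S.F_norm x.2 v.2⟩ : S.V) : S.Q) := rfl

/-- the class of the `V`-part -/
noncomputable def Setup.tau (x : S.F) : S.Q :=
  ((⟨(S.mem_F.1 x.2).choose, (S.mem_F.1 x.2).choose_spec.1⟩ : S.V) : S.Q)

lemma Setup.tau_eq {v : G} (hv : v ∈ S.V) {k : G} (hk : k ∈ S.K) (h : v * k ∈ S.F) :
    S.tau ⟨v * k, h⟩ = ((⟨v, hv⟩ : S.V) : S.Q) := by
  obtain ⟨h1, k', hk', h2⟩ := (S.mem_F.1 h).choose_spec
  change (((⟨(S.mem_F.1 h).choose, h1⟩ : S.V)) : S.Q) = _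
  rw [QuotientGroup.eq, Subgroup.mem_subgroupOf]
  push_cast
  have h3 : ((S.mem_F.1 h).choose)⁻¹ * v = k' * k⁻¹ := by
    rw [inv_mul_eq_iff_eq_mul, ← mul_assoc, h2]
    group
  rw [h3]
  exact S.K.mul_mem hk' (S.K.inv_mem hk)

lemma Setup.tau_mul (x y : S.F) : S.tau (x * y) = S.tau x * S.act x (S.tau y) := by
  obtain ⟨x, hx⟩ := x
  obtain ⟨y, hy⟩ := y
  obtain ⟨v, hv, k, hk, rfl⟩ := S.mem_F.1 hx
  obtain ⟨v', hv', k', hk', rfl⟩ := S.mem_F.1 hy
  have h1 : k * v' * k⁻¹ ∈ S.V := S.norm k hk v' hv'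
  have e1 : (⟨v * k, hx⟩ * ⟨v' * k', hy⟩ : S.F) =
      ⟨(v * (k * v' * k⁻¹)) * (k * k'), by
        have := S.F.mul_mem hx hy
        convert this using 1
        group⟩ := by
    apply Subtype.ext
    push_cast
    group
  rw [e1, S.tau_eq (S.V.mul_mem hv h1) (S.K.mul_mem hk hk'), S.tau_eq hv hk, S.tau_eq hv' hk',
    S.act_mk, ← QuotientGroup.mk_mul, QuotientGroup.eq, Subgroup.mem_subgroupOf]
  push_cast
  -- `(v a)⁻¹ (v (v k v' (v k)⁻¹)) = a⁻¹ v a v⁻¹`, `a = k v' k⁻¹`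
  have h2 := S.comm (k * v' * k⁻¹)⁻¹ (S.V.inv_mem h1) v hv
  have h3 : (v * (k * v' * k⁻¹))⁻¹ * (v * (v * k * v' * (v * k)⁻¹)) =
      (k * v' * k⁻¹)⁻¹ * v * ((k * v' * k⁻¹)⁻¹)⁻¹ * v⁻¹ := by
    group
  rw [h3]
  exact h2

lemma Setup.tau_one : S.tau 1 = 1 := by
  have h := S.tau_mul 1 1
  rw [mul_one, map_one, MulAut.one_apply] at h
  exact left_eq_mul.1 h

lemma Setup.tau_eq_one (x : S.F) : S.tau x = 1 ↔ (x : G) ∈ S.K := by
  obtain ⟨x, hx⟩ := x
  obtain ⟨v, hv, k, hk, rfl⟩ := S.mem_F.1 hx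
  rw [S.tau_eq hv hk, QuotientGroup.eq_one_iff, Subgroup.mem_subgroupOf]
  constructor
  · intro h
    exact S.K.mul_mem h hk
  · intro h
    have := S.K.mul_mem h (S.K.inv_mem hk)
    simpa using this

lemma Setup.tau_surj (q : S.Q) : ∃ x : S.F, S.tau x = q := by
  obtain ⟨v, rfl⟩ := QuotientGroup.mk_surjective q
  have h : (v : G) * 1 ∈ S.F := by
    rw [mul_one]
    exact S.V_le v.2
  exact ⟨⟨(v : G) * 1, h⟩, S.tau_eq v.2 S.K.one_mem h⟩

lemma Setup.tau_inv (x : S.F) : S.tau x⁻¹ = (S.act x⁻¹ (S.tau x))⁻¹ := by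
  have h := S.tau_mul x⁻¹ x
  rw [inv_mul_cancel, S.tau_one] at h
  exact eq_inv_of_mul_eq_one_left h.symm

/-- the conjugate -/
lemma Setup.tau_conj (x g : S.F) :
    S.tau (x⁻¹ * g * x) = S.act x⁻¹ ((S.tau x)⁻¹ * S.tau g * S.act g (S.tau x)) := by
  rw [mul_assoc, S.tau_mul, S.tau_mul, S.tau_inv]
  simp [mul_assoc]

/-- the action of `F` on the characters of `Q` -/
noncomputable instance Setup.dual : MulAction S.F (S.Q →* ℂˣ) := dualAction S.act

lemma Setup.smul_apply (x : S.F) (χ : S.Q →* ℂˣ) (q : S.Q) : (x • χ) q = χ (S.act x⁻¹ q) := rfl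

lemma Setup.smul_eq_iff (x : S.F) (χ : S.Q →* ℂˣ) : x • χ = χ ↔ ∀ q, χ (S.act x q) = χ q := by
  constructor
  · intro h q
    conv_rhs => rw [← inv_smul_smul x χ, h, S.smul_apply, inv_inv]
  · intro h
    refine MonoidHom.ext fun q => ?_
    rw [S.smul_apply]
    have h1 := h (S.act x⁻¹ q)
    rw [← MulAut.mul_apply, ← map_mul, mul_inv_cancel, map_one, MulAut.one_apply] at h1
    exact h1.symm

/-- the stabiliser of `χ`, as a subgroup of `G` -/
noncomputable def Setup.J (χ : S.Q →* ℂˣ) : Subgroup G :=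
  (MulAction.stabilizer S.F χ).map S.F.subtype

lemma Setup.mem_J {χ : S.Q →* ℂˣ} {g : G} :
    g ∈ S.J χ ↔ ∃ h : g ∈ S.F, (⟨g, h⟩ : S.F) • χ = χ := by
  constructor
  · rintro ⟨x, hx, rfl⟩
    exact ⟨x.2, hx⟩
  · rintro ⟨h, hg⟩
    exact ⟨⟨g, h⟩, hg, rfl⟩

lemma Setup.J_le (χ : S.Q →* ℂˣ) : S.J χ ≤ S.F := fun _ hg => (S.mem_J.1 hg).choose

lemma Setup.V_le_J (χ : S.Q →* ℂˣ) : S.V ≤ S.J χ := by
  intro v hv
  have hF : v ∈ S.F := S.V_le hv
  refine S.mem_J.2 ⟨hF, ?_⟩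
  rw [S.smul_eq_iff]
  intro q
  obtain ⟨w, rfl⟩ := QuotientGroup.mk_surjective q
  rw [S.act_mk]
  congr 1
  rw [QuotientGroup.eq, Subgroup.mem_subgroupOf]
  push_cast
  have h1 := S.comm v hv (w : G)⁻¹ (S.V.inv_mem w.2)
  convert h1 using 1
  group

/-- the extension of `χ` to its stabiliser -/
noncomputable def Setup.ext (χ : S.Q →* ℂˣ) : S.J χ →* ℂˣ where
  toFun g := χ (S.tau ⟨g, S.J_le χ g.2⟩)
  map_one' := by
    have : (⟨((1 : S.J χ) : G), S.J_le χ (1 : S.J χ).2⟩ : S.F) = 1 := rfl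
    rw [this, S.tau_one, map_one]
  map_mul' x y := by
    have h1 : (⟨((x * y : S.J χ) : G), S.J_le χ (x * y : S.J χ).2⟩ : S.F) =
      ⟨x, S.J_le χ x.2⟩ * ⟨y, S.J_le χ y.2⟩ := rfl
    rw [h1, S.tau_mul, map_mul]
    obtain ⟨h2, h3⟩ := S.mem_J.1 x.2
    rw [(S.smul_eq_iff _ _).1 h3]

/-- the summand attached to a character -/
noncomputable def Setup.phi (g : S.F) (χ : S.Q →* ℂˣ) : ℂ :=
  if g • χ = χ then ((χ (S.tau g) : ℂˣ) : ℂ) else 0

/-- one term of the induced character -/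
lemma Setup.term (χ : S.Q →* ℂˣ) (x g : S.F) :
    (if h : (x : G)⁻¹ * g * (x : G) ∈ S.J χ then ((S.ext χ ⟨_, h⟩ : ℂˣ) : ℂ) else 0) =
      S.phi g (x • χ) := by
  have hiff : (x : G)⁻¹ * g * (x : G) ∈ S.J χ ↔ g • x • χ = x • χ := by
    rw [S.mem_J]
    constructor
    · rintro ⟨h, h1⟩
      have h2 : (⟨(x : G)⁻¹ * g * (x : G), h⟩ : S.F) = x⁻¹ * g * x := rfl
      rw [h2, mul_smul, mul_smul, inv_smul_eq_iff] at h1
      exact h1
    · intro h1
      refine ⟨S.F.mul_mem (S.F.mul_mem (S.F.inv_mem x.2) g.2) x.2, ?_⟩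
      have h2 : (⟨(x : G)⁻¹ * g * (x : G),
        S.F.mul_mem (S.F.mul_mem (S.F.inv_mem x.2) g.2) x.2⟩ : S.F) = x⁻¹ * g * x := rfl
      rw [h2, mul_smul, mul_smul, inv_smul_eq_iff]
      exact h1
  unfold Setup.phi
  by_cases h : (x : G)⁻¹ * g * (x : G) ∈ S.J χ
  · rw [dif_pos h, if_pos (hiff.1 h)]
    have h1 := hiff.1 h
    congr 1
    change χ (S.tau (x⁻¹ * g * x)) = _
    rw [S.tau_conj]
    rw [← S.smul_apply, map_mul, map_mul, map_inv, (S.smul_eq_iff _ _).1 h1]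
    rw [mul_comm ((x • χ) (S.tau x))⁻¹, inv_mul_cancel_right]
  · rw [dif_neg h, if_neg (fun h1 => h (hiff.2 h1))]

/-- the cosets of the stabiliser and the orbit -/
noncomputable def Setup.orbitEquiv (χ : S.Q →* ℂˣ) :
    (S.F ⧸ (S.J χ).subgroupOf S.F) ≃ MulAction.orbit S.F χ :=
  (Subgroup.quotientEquivOfEq (by
    ext x
    rw [Subgroup.mem_subgroupOf, S.mem_J, MulAction.mem_stabilizer_iff]
    exact ⟨fun ⟨_, h⟩ => h, fun h => ⟨x.2, h⟩⟩)).trans
      (MulAction.orbitEquivQuotientStabilizer S.F χ).symm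

lemma Setup.orbitEquiv_apply (χ : S.Q →* ℂˣ) (x : S.F ⧸ (S.J χ).subgroupOf S.F) :
    (S.orbitEquiv χ x : S.Q →* ℂˣ) = x.out • χ := by
  conv_lhs => rw [← Quotient.out_eq' x]
  rfl

lemma Setup.indChar_J (χ : S.Q →* ℂˣ) (g : S.F) :
    indChar S.F (S.J χ) (S.ext χ) g = ∑ᶠ ψ : MulAction.orbit S.F χ, S.phi g ψ := by
  rw [← finsum_comp_equiv (S.orbitEquiv χ)]
  unfold indChar
  apply finsum_congr
  intro x
  rw [S.orbitEquiv_apply]
  exact S.term χ x.out g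

/-- the cosets of `K` and `Q` -/
lemma Setup.indChar_K [Fintype S.Q] (g : S.F) :
    indChar S.F S.K 1 g = ∑ q : S.Q, (if S.tau g * S.act g q = q then (1 : ℂ) else 0) := by
  let e : (S.F ⧸ S.K.subgroupOf S.F) → S.Q := fun x => S.tau x.out
  have hinj : Function.Injective e := by
    intro x y hxy
    have h1 : S.tau x.out = S.tau y.out := hxy
    have h2 : S.tau (x.out⁻¹ * y.out) = 1 := by
      rw [S.tau_mul, ← h1, S.tau_inv, inv_mul_cancel]
    rw [S.tau_eq_one] at h2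
    rw [← Quotient.out_eq' x, ← Quotient.out_eq' y]
    exact QuotientGroup.eq.2 h2
  have hsurj : Function.Surjective e := by
    intro q
    obtain ⟨x, rfl⟩ := S.tau_surj q
    refine ⟨(x : S.F ⧸ S.K.subgroupOf S.F), ?_⟩
    set y := (x : S.F ⧸ S.K.subgroupOf S.F).out with hy
    have h1 : (y : S.F ⧸ S.K.subgroupOf S.F) = x := Quotient.out_eq' _
    have h2 : y⁻¹ * x ∈ S.K.subgroupOf S.F := QuotientGroup.eq.1 h1
    have h3 : S.tau (y⁻¹ * x) = 1 := (S.tau_eq_one _).2 h2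
    change S.tau y = S.tau x
    have h4 := S.tau_mul y (y⁻¹ * x)
    rw [mul_inv_cancel_left, h3, map_one, mul_one] at h4
    exact h4.symm
  rw [← finsum_eq_sum_of_fintype, ← finsum_comp_equiv (Equiv.ofBijective e ⟨hinj, hsurj⟩)]
  unfold indChar
  apply finsum_congr
  intro x
  have hiff : (x.out : G)⁻¹ * g * (x.out : G) ∈ S.K ↔
      S.tau g * S.act g (S.tau x.out) = S.tau x.out := by
    have h1 : (x.out : G)⁻¹ * g * (x.out : G) = ((x.out⁻¹ * g * x.out : S.F) : G) := rfl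
    rw [h1, ← S.tau_eq_one, S.tau_conj, MulEquiv.map_eq_one_iff, mul_assoc, inv_mul_eq_one]
    exact eq_comm
  change _ = if S.tau g * S.act g (S.tau x.out) = S.tau x.out then (1 : ℂ) else 0
  by_cases h : (x.out : G)⁻¹ * g * (x.out : G) ∈ S.K
  · rw [dif_pos h, if_pos (hiff.1 h)]
    simp
  · rw [dif_neg h, if_neg (fun h1 => h (hiff.2 h1))]

/-- the orbits -/
abbrev Setup.Orb : Type := MulAction.orbitRel.Quotient S.F (S.Q →* ℂˣ)

/-- The decomposition of the permutation character. -/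
lemma Setup.decomp [Fintype S.Q] [Fintype S.Orb] (g : S.F) :
    indChar S.F S.K 1 g =
      ∑ ω : S.Orb, indChar S.F (S.J ω.out) (S.ext ω.out) g := by
  refine (S.indChar_K g).trans (Eq.trans (Finset.sum_congr rfl fun q _ => ?_)
    ((fix_count (S.act g) (S.tau g)).trans ?_))
  · by_cases h : S.tau g * (S.act g) q = q
    · rw [if_pos h, if_pos h]
    · rw [if_neg h, if_neg h]
  have h1 : ∀ χ : S.Q →* ℂˣ, (if χ.comp (S.act g).toMonoidHom = χ then
      ((χ (S.tau g) : ℂˣ) : ℂ) else 0) = S.phi g χ := by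
    intro χ
    unfold Setup.phi
    have hiff : χ.comp (S.act g).toMonoidHom = χ ↔ g • χ = χ := by
      rw [S.smul_eq_iff]
      constructor
      · intro h q
        exact DFunLike.congr_fun h q
      · intro h
        exact MonoidHom.ext fun q => h q
    by_cases h : g • χ = χ
    · rw [if_pos h, if_pos (hiff.2 h)]
    · rw [if_neg h, if_neg (fun h1 => h (hiff.1 h1))]
  simp_rw [h1, S.indChar_J]
  have : ∀ ω : S.Orb, Fintype (MulAction.orbit S.F ω.out) := fun ω => Fintype.ofFinite _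
  simp_rw [finsum_eq_sum_of_fintype]
  rw [← Fintype.sum_sigma']
  rw [← Fintype.sum_equiv (MulAction.selfEquivSigmaOrbits S.F (S.Q →* ℂˣ)) (fun χ => S.phi g χ)]
  intro χ
  rfl

end concrete

end Pool.Agent.Helper40.HW
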