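import Mathlib

/-! Fourier analysis on a finite abelian group with an affine action. -/

namespace Pool.Agent.Helper40.HW

open scoped Classical

section fourier

variable {Q : Type} [CommGroup Q] [Fintype Q]

noncomputable instance dualFintype : Fintype (Q →* ℂˣ) := by
  have : Finite (Q →* ℂˣ) := inferInstance
  exact Fintype.ofFinite _

lemma orth_group (ψ : Q →* ℂˣ) :
    ∑ q : Q, ((ψ q : ℂˣ) : ℂ) = if ψ = 1 then (Fintype.card Q : ℂ) else 0 := by
  split_ifs with h
  · subst h; simp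
  · have := sum_hom_units_eq_zero ((Units.coeHom ℂ).comp ψ) (by
      intro h2
      apply h
      ext q
      have := DFunLike.congr_fun h2 q
      simpa using this)
    simpa using this

lemma orth_dual (a : Q) :
    ∑ χ : Q →* ℂˣ, ((χ a : ℂˣ) : ℂ) = if a = 1 then (Fintype.card Q : ℂ) else 0 := by
  split_ifs with h
  · subst h
    have h1 : Nat.card (Q →* ℂˣ) = Nat.card Q :=
      CommGroup.card_monoidHom_of_hasEnoughRootsOfUnity Q ℂ
    simp only [map_one, Units.val_one, Finset.sum_const, Finset.card_univ, nsmul_eq_mul, mul_one]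
    rw [← Nat.card_eq_fintype_card, h1, Nat.card_eq_fintype_card]
  · let ev : (Q →* ℂˣ) →* ℂ := (Units.coeHom ℂ).comp (MonoidHom.eval a)
    have := sum_hom_units_eq_zero ev (by
      intro h2
      obtain ⟨φ, hφ⟩ := CommGroup.exists_apply_ne_one_of_hasEnoughRootsOfUnity Q ℂ h
      apply hφ
      have := DFunLike.congr_fun h2 φ
      simpa [ev] using this)
    simpa [ev] using this

/-- The number of fixed points of the affine map `q ↦ t * θ q`. -/
lemma fix_count (θ : MulAut Q) (t : Q) :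
    ∑ q : Q, (if t * θ q = q then (1 : ℂ) else 0) =
      ∑ χ : Q →* ℂˣ, if χ.comp θ.toMonoidHom = χ then ((χ t : ℂˣ) : ℂ) else 0 := by
  have hcard : (Fintype.card Q : ℂ) ≠ 0 := by
    exact_mod_cast Fintype.card_ne_zero
  have h1 : ∀ q : Q, (if t * θ q = q then (1 : ℂ) else 0) * Fintype.card Q =
      ∑ χ : Q →* ℂˣ, ((χ (t * θ q * q⁻¹) : ℂˣ) : ℂ) := by
    intro q
    rw [orth_dual, mul_inv_eq_one]
    split_ifs <;> simp
  have h2 : ∀ χ : Q →* ℂˣ, (if χ.comp θ.toMonoidHom = χ then ((χ t : ℂˣ) : ℂ) else 0) *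
      Fintype.card Q = ∑ q : Q, ((χ (t * θ q * q⁻¹) : ℂˣ) : ℂ) := by
    intro χ
    have h3 : ∀ q : Q, ((χ (t * θ q * q⁻¹) : ℂˣ) : ℂ) =
        ((χ t : ℂˣ) : ℂ) * (((χ.comp θ.toMonoidHom * χ⁻¹) q : ℂˣ) : ℂ) := by
      intro q
      simp [mul_assoc]
    simp_rw [h3]
    rw [← Finset.mul_sum, orth_group]
    have h4 : χ.comp θ.toMonoidHom * χ⁻¹ = 1 ↔ χ.comp θ.toMonoidHom = χ := by
      constructor
      · intro h
        ext q
        have := DFunLike.congr_fun h q
        rw [MonoidHom.mul_apply, MonoidHom.inv_apply, MonoidHom.one_apply, mul_inv_eq_one] at this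
        rw [this]
      · intro h
        ext q
        rw [h]
        simp
    by_cases h5 : χ.comp θ.toMonoidHom = χ
    · rw [if_pos h5, if_pos (h4.2 h5)]
    · rw [if_neg h5, if_neg (fun h => h5 (h4.1 h))]
      simp
  have h3 : (∑ q : Q, (if t * θ q = q then (1 : ℂ) else 0)) * Fintype.card Q =
      (∑ χ : Q →* ℂˣ, if χ.comp θ.toMonoidHom = χ then ((χ t : ℂˣ) : ℂ) else 0) *
        Fintype.card Q := by
    rw [Finset.sum_mul, Finset.sum_mul]
    simp_rw [h1, h2]
    exact Finset.sum_comm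
  exact mul_right_cancel₀ hcard h3

end fourier

end Pool.Agent.Helper40.HW
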