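import Pool.Agent.Helper40.HW.Decomp
import Pool.Agent.Helper40.HW.Access

/-! Hasse-Weil over abelian extensions of accessible fields. -/

open Complex

namespace Pool.Agent.Helper40.HW

open scoped Classical

section chars

variable {G : Type} [Group G] {F J : Subgroup G}

lemma indChar_one [Finite (F ⧸ J.subgroupOf F)] (χ : J →* ℂˣ) :
    indChar F J χ 1 = (J.relIndex F : ℂ) := by
  have h1 : ∀ x : F ⧸ J.subgroupOf F,
      (if h : (x.out : G)⁻¹ * 1 * (x.out : G) ∈ J then ((χ ⟨_, h⟩ : ℂˣ) : ℂ) else 0) = 1 := by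
    intro x
    have h : (x.out : G)⁻¹ * 1 * (x.out : G) = 1 := by group
    have h2 : (x.out : G)⁻¹ * 1 * (x.out : G) ∈ J := by rw [h]; exact J.one_mem
    rw [dif_pos h2]
    have h3 : (⟨(x.out : G)⁻¹ * 1 * (x.out : G), h2⟩ : J) = 1 := Subtype.ext h
    rw [h3, map_one, Units.val_one]
  unfold indChar
  simp_rw [h1]
  rw [Subgroup.relIndex, Subgroup.index]
  have : Fintype (F ⧸ J.subgroupOf F) := Fintype.ofFinite _
  rw [finsum_eq_sum_of_fintype, Finset.sum_const, Nat.card_eq_fintype_card, Finset.card_univ]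
  simp

lemma indChar_inv [Finite (F ⧸ J.subgroupOf F)] (χ : J →* ℂˣ)
    (hχ : ∀ x, ‖((χ x : ℂˣ) : ℂ)‖ = 1) (g : G) :
    indChar F J χ⁻¹ g = (starRingEnd ℂ) (indChar F J χ g) := by
  unfold indChar
  have h := AddMonoidHom.map_finsum (starRingEnd ℂ : ℂ →+* ℂ).toAddMonoidHom
    (f := fun x : F ⧸ J.subgroupOf F =>
      if h : (x.out : G)⁻¹ * g * (x.out : G) ∈ J then ((χ ⟨_, h⟩ : ℂˣ) : ℂ) else 0)
    (Set.toFinite _)
  refine Eq.trans (finsum_congr fun x => ?_) h.symm
  by_cases hx : (x.out : G)⁻¹ * g * (x.out : G) ∈ J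
  · rw [dif_pos hx, dif_pos hx]
    change (((χ ⟨_, hx⟩)⁻¹ : ℂˣ) : ℂ) = (starRingEnd ℂ) _
    rw [Units.val_inv_eq_inv_val, Complex.inv_eq_conj (hχ _)]
  · rw [dif_neg hx, dif_neg hx]
    simp

end chars

section analytic

lemma cpow_prod {ι : Type} (s : Finset ι) (A : ι → ℝ) (hA : ∀ i ∈ s, 0 < A i) (z : ℂ) :
    ((∏ i ∈ s, A i : ℝ) : ℂ) ^ z = ∏ i ∈ s, (A i : ℂ) ^ z := by
  induction s using Finset.induction_on with
  | empty => simp
  | insert a s ha ih =>
    rw [Finset.prod_insert ha, Finset.prod_insert ha, ← ih fun i hi =>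
      hA i (Finset.mem_insert_of_mem hi), Complex.ofReal_mul,
      Complex.mul_cpow_ofReal_nonneg (hA a (Finset.mem_insert_self a s)).le]
    exact Finset.prod_nonneg fun i hi => (hA i (Finset.mem_insert_of_mem hi)).le

lemma isCompleted_prod {ι : Type} [Fintype ι] {L : ι → ℂ → ℂ} {A : ι → ℝ} {n : ι → ℕ}
    {f Λ : ι → ℂ → ℂ} (hA : ∀ i, 0 < A i) (h : ∀ i, IsCompleted (L i) (A i) (n i) (f i) (Λ i))
    {L' : ℂ → ℂ} (hL : ∀ s : ℂ, 3 / 2 < s.re → L' s = ∏ i, L i s) {A' : ℝ}
    (hA' : A' = ∏ i, A i) {n' : ℕ} (hn : n' = ∑ i, n i) :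
    IsCompleted L' A' n' (fun s => ∏ i, f i s) (fun s => ∏ i, Λ i s) where
  entire := Differentiable.fun_finsetProd fun i _ => (h i).entire
  extends_L s hs := by
    rw [hL s hs]
    exact Finset.prod_congr rfl fun i _ => (h i).extends_L s hs
  entire_completed := Differentiable.fun_finsetProd fun i _ => (h i).entire_completed
  completed s hs := by
    rw [hA', cpow_prod _ _ fun i _ => hA i, hn, ← Finset.prod_pow_eq_pow_sum,
      ← Finset.prod_mul_distrib, ← Finset.prod_mul_distrib]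
    exact Finset.prod_congr rfl fun i _ => (h i).completed s hs

/-- the completed function is unique -/
lemma isCompleted_unique {L : ℂ → ℂ} {A : ℝ} {n : ℕ} {f Λ f' Λ' : ℂ → ℂ}
    (h : IsCompleted L A n f Λ) (h' : IsCompleted L A n f' Λ') : Λ = Λ' := by
  have h1 : AnalyticOnNhd ℂ Λ Set.univ := fun z _ => h.entire_completed.analyticAt z
  have h2 : AnalyticOnNhd ℂ Λ' Set.univ := fun z _ => h'.entire_completed.analyticAt z
  apply AnalyticOnNhd.eq_of_eventuallyEq h1 h2 (z₀ := 2)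
  have ho : IsOpen {s : ℂ | 3 / 2 < s.re} := isOpen_lt continuous_const Complex.continuous_re
  filter_upwards [ho.mem_nhds (show (2 : ℂ) ∈ {s : ℂ | 3 / 2 < s.re} by
    simp only [Set.mem_ofPred_eq, Complex.re_ofNat]; norm_num)] with s hs
  have hs' : ∀ m : ℕ, s ≠ -m := by
    intro m hm
    have h3 : (3 : ℝ) / 2 < s.re := hs
    rw [hm] at h3
    simp only [Complex.neg_re, Complex.natCast_re] at h3
    have : (0 : ℝ) ≤ m := Nat.cast_nonneg m
    linarith
  rw [h.completed s hs', h'.completed s hs', h.extends_L s hs, h'.extends_L s hs]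

end analytic

variable {G : Type} [Group G] [TopologicalSpace G] [IsTopologicalGroup G] [CompactSpace G]

lemma finite_quot {J : Subgroup G} (hJ : IsOpen (J : Set G)) (F : Subgroup G) :
    Finite (F ⧸ J.subgroupOf F) := by
  have h1 : Finite (G ⧸ J) := Subgroup.quotient_finite_of_isOpen J hJ
  have h2 : J.FiniteIndex := Subgroup.finiteIndex_of_finite_quotient
  exact Subgroup.finite_quotient_of_finiteIndex

/-- Hasse-Weil from a decomposition of the permutation character -/
lemma hasseWeil_of_decomp (D : LSystem G) {F K : Subgroup G} (hF : IsOpen (F : Set G))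
    (hK : IsOpen (K : Set G)) (hKF : K ≤ F) {ι : Type} [Fintype ι] (J : ι → Subgroup G)
    (χ : (i : ι) → J i →* ℂˣ) (hJ : ∀ i, IsOpen (J i : Set G) ∧ J i ≤ F ∧ FiniteOrder (χ i))
    (haut : ∀ i, TwistsHold D (J i)) (hχ : ∀ i x, ‖((χ i x : ℂˣ) : ℂ)‖ = 1)
    (hid : ∀ g ∈ F, indChar F K 1 g = ∑ i, indChar F (J i) (χ i) g) : HasseWeil D K := by
  have hfin : ∀ J : Subgroup G, IsOpen (J : Set G) → Finite (F ⧸ J.subgroupOf F) :=
    fun J hJ => finite_quot hJ F
  -- the identity for the inverse characters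
  have hid' : ∀ g ∈ F, indChar F K 1 g = ∑ i, indChar F (J i) (χ i)⁻¹ g := by
    intro g hg
    have := hfin K hK
    have h1 := indChar_inv (F := F) (J := K) 1 (by intro x; simp) g
    have h0 : (1 : K →* ℂˣ)⁻¹ = 1 := by ext x; simp
    rw [h0] at h1
    rw [h1, hid g hg, map_sum]
    refine Finset.sum_congr rfl fun i _ => ?_
    have := hfin (J i) (hJ i).1
    exact (indChar_inv (χ i) (hχ i) g).symm
  have hJ' : ∀ i, IsOpen (J i : Set G) ∧ J i ≤ F ∧ FiniteOrder (χ i)⁻¹ := by
    intro i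
    obtain ⟨h1, h2, U, hU, h3⟩ := hJ i
    refine ⟨h1, h2, U, hU, fun g hg hgU => ?_⟩
    rw [MonoidHom.inv_apply, h3 g hg hgU, inv_one]
  obtain ⟨hL, hA, hw⟩ := D.artin F K hF hK hKF ι J χ hJ hid
  obtain ⟨hL', hA', -⟩ := D.artin F K hF hK hKF ι J (fun i => (χ i)⁻¹) hJ' hid'
  -- the degrees
  have hn : K.index = ∑ i, (J i).index := by
    have h1 := hid 1 F.one_mem
    have := hfin K hK
    have := fun i => hfin (J i) (hJ i).1
    rw [indChar_one] at h1
    simp_rw [indChar_one] at h1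
    have h2 : K.relIndex F = ∑ i, (J i).relIndex F := by exact_mod_cast h1
    rw [← Subgroup.relIndex_mul_index hKF, h2, Finset.sum_mul]
    exact Finset.sum_congr rfl fun i _ => Subgroup.relIndex_mul_index (hJ i).2.1
  have htw := fun i => haut i (χ i) (hJ i).2.2
  choose f Λ f' Λ' h1 h2 h3 using htw
  have c1 := isCompleted_prod (fun i => D.cond_pos (J i) (χ i) (hJ i).1) h1 hL hA hn
  have c2 := isCompleted_prod (fun i => D.cond_pos (J i) (χ i)⁻¹ (hJ i).1) h2 hL' hA' hn
  refine ⟨_, _, c1, fun s => ?_⟩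
  have h4 : (fun s => ∏ i, Λ i s) = fun s => ∏ i, Λ' i s := isCompleted_unique c1 c2
  have h5 := congrFun h4 (2 - s)
  change ∏ i, Λ i s = D.root K 1 * ∏ i, Λ i (2 - s)
  rw [h5, hw, ← Finset.prod_mul_distrib]
  exact Finset.prod_congr rfl fun i _ => h3 i s

/-- Hasse-Weil for `K` if `K K'` is abelian over `K'`, `K'` is Galois over `K ∩ K'` and the twists
of `E` over the fields between `K ∩ K'` and `K'` satisfy Hasse-Weil. -/
theorem hasseWeil_abelian (D : LSystem G) {K V : Subgroup G}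
    (hKo : IsOpen (K : Set G)) (hVo : IsOpen (V : Set G))
    (hnorm : ∀ k ∈ K, ∀ v ∈ V, k * v * k⁻¹ ∈ V) (hcomm : CommIn V K)
    (hacc : ∀ J : Subgroup G, V ≤ J → J ≤ V ⊔ K → TwistsHold D J) : HasseWeil D K := by
  obtain ⟨S, rfl, rfl⟩ : ∃ S : Setup G, S.V = V ∧ S.K = K := ⟨⟨V, K, hnorm, hcomm⟩, rfl, rfl⟩
  have hF : IsOpen (S.F : Set G) := Subgroup.isOpen_mono S.V_le hVo
  have hfQ : Finite S.Q := finite_quot hKo S.V
  have : Fintype S.Q := Fintype.ofFinite _
  have : Finite S.Orb := Quotient.finite _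
  have : Fintype S.Orb := Fintype.ofFinite _
  rw [← S.F_eq] at hacc
  refine hasseWeil_of_decomp D hF hKo S.K_le (fun ω : S.Orb => S.J ω.out)
    (fun ω => S.ext ω.out) (fun ω => ⟨Subgroup.isOpen_mono (S.V_le_J ω.out) hVo, S.J_le ω.out,
      S.K, hKo, fun g hg hgK => ?_⟩)
    (fun ω => hacc _ (S.V_le_J ω.out) (S.J_le ω.out)) (fun ω x => ?_)
    (fun g hg => S.decomp ⟨g, hg⟩)
  · change ω.out (S.tau ⟨g, _⟩) = 1
    rw [(S.tau_eq_one _).2 hgK, map_one]
  · change ‖((ω.out (S.tau ⟨x, _⟩) : ℂˣ) : ℂ)‖ = 1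
    apply Complex.norm_eq_one_of_pow_eq_one (n := Fintype.card S.Q) _ Fintype.card_ne_zero
    rw [← Units.val_pow_eq_pow_val, ← map_pow, pow_card_eq_one, map_one, Units.val_one]

/-- Hasse-Weil for `K` if `K K'` is abelian over the Galois field `K'` and complex conjugation is
hypercentral in the Galois group of `K'`. -/
theorem hasseWeil_hypercentral (D : LSystem G) {c : G}
    (hD : ∀ J : Subgroup G, Accessible c J → TwistsHold D J) {K V : Subgroup G} [hV : V.Normal]
    (hKo : IsOpen (K : Set G)) (hVo : IsOpen (V : Set G)) (hcomm : CommIn V K) (n : ℕ)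
    (hc : QuotientGroup.mk' V c ∈ Subgroup.upperCentralSeries (G ⧸ V) n) :
    HasseWeil D K :=
  hasseWeil_abelian D hKo hVo (fun k _ v hv => hV.conj_mem v hv k) hcomm fun J hJ _ =>
    hD J (accessible_of_hypercentral hVo n hc hJ)

/-- Hasse-Weil for `K` if the complex conjugations of the Galois closure of `K` commute. -/
theorem hasseWeil_commuting (D : LSystem G) {c : G}
    (hD : ∀ J : Subgroup G, Accessible c J → TwistsHold D J) {K : Subgroup G}
    (hKo : IsOpen (K : Set G))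
    (hcomm : ∀ g h : G, g * c * g⁻¹ * (h * c * h⁻¹) * (g * c * g⁻¹)⁻¹ * (h * c * h⁻¹)⁻¹ ∈
      K.normalCore) : HasseWeil D K := by
  set N := K.normalCore with hN
  let π := QuotientGroup.mk' N
  let T : Set (G ⧸ N) := Group.conjugatesOfSet {π c}
  have hT : ∀ x ∈ T, ∃ g : G, x = π (g * c * g⁻¹) := by
    intro x hx
    rw [Group.mem_conjugatesOfSet_iff] at hx
    obtain ⟨a, ha, hax⟩ := hx
    rw [Set.mem_singleton_iff] at ha
    subst ha
    obtain ⟨b, hb⟩ := isConj_iff.1 hax
    obtain ⟨g, rfl⟩ := QuotientGroup.mk'_surjective N b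
    refine ⟨g, ?_⟩
    rw [← hb]
    simp [π]
  have hTT : ∀ x ∈ T, ∀ y ∈ T, x * y = y * x := by
    intro x hx y hy
    obtain ⟨g, rfl⟩ := hT x hx
    obtain ⟨h, rfl⟩ := hT y hy
    have h1 : π (g * c * g⁻¹ * (h * c * h⁻¹) * (g * c * g⁻¹)⁻¹ *
      (h * c * h⁻¹)⁻¹) = 1 := (QuotientGroup.eq_one_iff _).2 (hcomm g h)
    rw [map_mul, map_mul, map_mul, map_inv, map_inv, mul_inv_eq_one, mul_inv_eq_iff_eq_mul] at h1
    exact h1
  have hC : ∀ x ∈ Subgroup.normalClosure {π c}, ∀ y ∈ Subgroup.normalClosure {π c},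
      x * y = y * x := by
    have h1 : Subgroup.closure T ≤ Subgroup.centralizer T := by
      rw [Subgroup.closure_le]
      intro x hx
      rw [SetLike.mem_coe, Subgroup.mem_centralizer_iff]
      intro y hy
      exact hTT y hy x hx
    have h2 : Subgroup.closure T ≤ Subgroup.centralizer (Subgroup.closure T) := by
      rw [Subgroup.closure_le]
      intro x hx
      rw [SetLike.mem_coe, Subgroup.mem_centralizer_iff]
      intro y hy
      exact ((Subgroup.mem_centralizer_iff.1 (h1 hy)) x hx).symm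
    intro x hx y hy
    exact ((Subgroup.mem_centralizer_iff.1 (h2 hx)) y hy).symm
  let V : Subgroup G := (Subgroup.normalClosure {π c}).comap π
  have hVn : V.Normal := inferInstance
  have hNV : N ≤ V := by
    intro g hg
    change π g ∈ Subgroup.normalClosure {π c}
    have : π g = 1 := (QuotientGroup.eq_one_iff g).2 hg
    rw [this]
    exact one_mem _
  have hNo : IsOpen (N : Set G) := by
    have h1 : Finite (G ⧸ K) := Subgroup.quotient_finite_of_isOpen K hKo
    have h2 : K.FiniteIndex := Subgroup.finiteIndex_of_finite_quotient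
    have h3 : N.FiniteIndex := inferInstance
    have h4 : IsClosed (K : Set G) := Subgroup.isClosed_of_isOpen K hKo
    have h5 : IsClosed (N : Set G) := Subgroup.normalCore_isClosed K h4
    exact Subgroup.isOpen_of_isClosed_of_finiteIndex N h5
  have hVo : IsOpen (V : Set G) := Subgroup.isOpen_mono hNV hNo
  refine hasseWeil_hypercentral D hD (V := V) hKo hVo ?_ 0 ?_
  · intro x hx y hy
    apply K.normalCore_le
    have h1 := hC (π x) hx (π y) hy
    apply (QuotientGroup.eq_one_iff _).1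
    change π (x * y * x⁻¹ * y⁻¹) = 1
    rw [map_mul, map_mul, map_mul, map_inv, map_inv, h1]
    group
  · rw [Subgroup.upperCentralSeries_zero, Subgroup.mem_bot]
    apply (QuotientGroup.eq_one_iff _).2
    change π c ∈ Subgroup.normalClosure {π c}
    exact Subgroup.subset_normalClosure rfl

end Pool.Agent.Helper40.HW
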